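import Pool.Agent.PLX.StmtsA

/-!
# PLX row TRA (helper67, backup): transfer

Adaptation of the PLG row TRA of helper95.
-/

set_option autoImplicit false

open Finset
open scoped Pointwise

namespace Pool.Agent.PLX.H67

variable {A : Type} [AddCommGroup A] [Module ℚ A] {E : Type} [NormedAddCommGroup E]
  [NormedSpace ℝ E]

/-- unique decomposition -/
theorem uniqD {G : AddSubgroup A} {M M' : Submodule ℚ A} (hd : Disjoint M M') {y y' z z' : A}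
    (hy : y ∈ cut G M) (hy' : y' ∈ cut G M) (hz : z ∈ cut G M') (hz' : z' ∈ cut G M')
    (h : y + z = y' + z') : y = y' ∧ z = z' := by
  have h1 : y - y' = z' - z := by
    rw [sub_eq_sub_iff_add_eq_add, h, add_comm]
  have h2 : y - y' ∈ M := M.sub_mem hy.2 hy'.2
  have h3 : z' - z ∈ M' := M'.sub_mem hz'.2 hz.2
  rw [← h1] at h3
  have h4 : y - y' = 0 := Submodule.disjoint_def.1 hd _ h2 h3
  rw [h4] at h1
  exact ⟨sub_eq_zero.1 h4, (sub_eq_zero.1 h1.symm).symm⟩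

/-- step (2) -/
theorem stepT (Φ : A →+ ℂ) (f : A →+ E) (G : AddSubgroup A) (N : ℝ → Submodule ℚ A)
    (W : Finset ℝ) (j H t₁ t₂ t₃ : ℝ) (hN : Nar Φ f G N W j H) (h1 : t₁ ∈ W) (h2 : t₂ ∈ W)
    (h3 : t₃ ∈ W) (h23 : t₂ ≠ t₃) :
    ∀ x ∈ cut G (N t₁), 0 < (Φ x).re → ‖f x‖ * (H + 1) ≤ 1 →
      ∃ c : ℕ, 1 ≤ c ∧ (c : ℝ) ≤ H ∧ ∃ y ∈ cut G (N t₂), ∃ z ∈ cut G (N t₃), c • x = y + z ∧
        ‖f y‖ ≤ 4 ∧ ‖f z‖ ≤ 4 := by
  classical
  intro x hx hre hxs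
  have hH0 : 0 < H := by linarith [hN.hH]
  have hdis := hN.dis t₂ h2 t₃ h3 h23
  have hcard : ∀ t ∈ W, j / 3 ≤ ((ps Φ f (cut G (N t)) 1).card : ℝ) := by
    intro t ht
    have h4 : cnt f (cut G (N t)) 1 = 2 * (ps Φ f (cut G (N t)) 1).card + 1 := by
      refine card_ps (hN.dsc.cut (N t)) zero_le_one ?_
      intro u hu hu1 hu0
      exact hN.ppr u hu.1 (by linarith) (eq_zero_of_re (hN.slo t ht u hu.2) hu0)
    have h5 := hN.lines t ht
    rw [h4] at h5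
    push_cast at h5
    have := hN.hj
    linarith
  obtain ⟨a, b, hab, hcone⟩ := hN.narrow
  obtain ⟨S1, hS1⟩ : ∃ S : Finset A, S = ps Φ f (cut G (N t₁)) 1 := ⟨_, rfl⟩
  obtain ⟨S2, hS2⟩ : ∃ S : Finset A, S = ps Φ f (cut G (N t₂)) 1 := ⟨_, rfl⟩
  obtain ⟨S3, hS3⟩ : ∃ S : Finset A, S = ps Φ f (cut G (N t₃)) 1 := ⟨_, rfl⟩
  have hm : ∀ (t : ℝ) (u : A), u ∈ ps Φ f (cut G (N t)) 1 ↔
      u ∈ cut G (N t) ∧ ‖f u‖ ≤ 1 ∧ 0 < (Φ u).re := fun t u => mem_ps (hN.dsc.cut (N t))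
  have hc1 := hcard t₁ h1
  have hc2 := hcard t₂ h2
  have hc3 := hcard t₃ h3
  rw [← hS1] at hc1
  rw [← hS2] at hc2
  rw [← hS3] at hc3
  have hj := hN.hj
  -- the sum set
  have hB : ((S2 + S3).card : ℝ) = S2.card * S3.card := by
    have h5 : (S2 + S3).card = S2.card * S3.card := by
      apply Finset.card_add_iff.2
      rintro ⟨u, v⟩ huv ⟨u', v'⟩ huv' heq
      simp only [Set.mem_prod, Finset.mem_coe] at huv huv' heq
      rw [hS2, hS3, hm, hm] at huv huv'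
      obtain ⟨h6, h7⟩ := uniqD hdis huv.1.1 huv'.1.1 huv.2.1 huv'.2.1 heq
      rw [h6, h7]
    rw [h5]
    push_cast
    rfl
  have hBpos : j ^ 2 / 9 ≤ ((S2 + S3).card : ℝ) := by
    rw [hB]
    have : j / 3 * (j / 3) ≤ (S2.card : ℝ) * S3.card :=
      mul_le_mul hc2 hc3 (by linarith) (by positivity)
    calc j ^ 2 / 9 = j / 3 * (j / 3) := by ring
      _ ≤ _ := this
  have hBne : (S2 + S3).Nonempty := by
    rw [← Finset.card_pos]
    have : (0 : ℝ) < ((S2 + S3).card : ℝ) := by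
      have : 0 < j ^ 2 / 9 := by positivity
      linarith
    exact_mod_cast this
  have hsub : S1 + (S2 + S3) ⊆ cone Φ f G 8 a b := by
    intro w hw
    obtain ⟨u, hu, v, hv, rfl⟩ := Finset.mem_add.1 hw
    obtain ⟨v2, hv2, v3, hv3, rfl⟩ := Finset.mem_add.1 hv
    rw [hS1, hm] at hu
    rw [hS2, hm] at hv2
    rw [hS3, hm] at hv3
    obtain ⟨hu1, hu3, hu4⟩ := hu
    obtain ⟨hv21, hv23, hv24⟩ := hv2
    obtain ⟨hv31, hv33, hv34⟩ := hv3
    have hu2' : (Φ u).im = t₁ * (Φ u).re := hN.slo t₁ h1 u hu1.2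
    have hv22' : (Φ v2).im = t₂ * (Φ v2).re := hN.slo t₂ h2 v2 hv21.2
    have hv32' : (Φ v3).im = t₃ * (Φ v3).re := hN.slo t₃ h3 v3 hv31.2
    rw [mem_cone hN.dsc]
    refine ⟨G.add_mem hu1.1 (G.add_mem hv21.1 hv31.1), ?_, ?_, ?_, ?_⟩
    · rw [map_add, map_add]
      calc ‖f u + (f v2 + f v3)‖ ≤ ‖f u‖ + ‖f v2 + f v3‖ := norm_add_le _ _
        _ ≤ ‖f u‖ + (‖f v2‖ + ‖f v3‖) := by linarith [norm_add_le (f v2) (f v3)]
        _ ≤ 8 := by linarith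
    · rw [map_add, map_add, Complex.add_re, Complex.add_re]
      linarith
    · rw [map_add, map_add, Complex.add_re, Complex.add_re, Complex.add_im, Complex.add_im, hu2',
        hv22', hv32']
      have e1 := mul_le_mul_of_nonneg_right (hab t₁ h1).1 hu4.le
      have e2 := mul_le_mul_of_nonneg_right (hab t₂ h2).1 hv24.le
      have e3 := mul_le_mul_of_nonneg_right (hab t₃ h3).1 hv34.le
      linarith
    · rw [map_add, map_add, Complex.add_re, Complex.add_re, Complex.add_im, Complex.add_im, hu2',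
        hv22', hv32']
      have e1 := mul_le_mul_of_nonneg_right (hab t₁ h1).2 hu4.le
      have e2 := mul_le_mul_of_nonneg_right (hab t₂ h2).2 hv24.le
      have e3 := mul_le_mul_of_nonneg_right (hab t₃ h3).2 hv34.le
      linarith
  have hK : ((S1 + (S2 + S3)).card : ℝ) ≤ H * (S2 + S3).card := by
    have h5 : ((S1 + (S2 + S3)).card : ℝ) ≤ ((cone Φ f G 8 a b).card : ℝ) := by
      exact_mod_cast Finset.card_le_card hsub
    have h6 : H * (j ^ 2 / 9) ≤ H * (S2 + S3).card := mul_le_mul_of_nonneg_left hBpos hH0.le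
    linarith
  obtain ⟨F, _, hF, hcov⟩ := Finset.ruzsa_covering_add hBne hK
  -- the multiples
  obtain ⟨M, hNd⟩ : ∃ M : ℕ, M = ⌊H⌋₊ := ⟨_, rfl⟩
  have hN1 : (M : ℝ) ≤ H := by rw [hNd]; exact Nat.floor_le hH0.le
  have hFN : F.card ≤ M := by rw [hNd]; exact Nat.le_floor hF
  have hmul : ∀ n ∈ Finset.Icc 1 (M + 1), n • x ∈ S1 := by
    intro n hn
    rw [Finset.mem_Icc] at hn
    rw [hS1, hm]
    have hnR : (n : ℝ) ≤ H + 1 := by
      have : (n : ℝ) ≤ M + 1 := by exact_mod_cast hn.2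
      linarith
    have hn1 : (1 : ℝ) ≤ n := by exact_mod_cast hn.1
    refine ⟨(cut G (N t₁)).nsmul_mem hx n, ?_, ?_⟩
    · rw [norm_f_nat]
      calc (n : ℝ) * ‖f x‖ ≤ (H + 1) * ‖f x‖ := mul_le_mul_of_nonneg_right hnR (norm_nonneg _)
        _ ≤ 1 := by linarith
    · have : (Φ (n • x)).re = n * (Φ x).re := by
        rw [map_nsmul, nsmul_eq_mul]
        simp [Complex.mul_re]
      rw [this]
      positivity
  have hch : ∀ n ∈ Finset.Icc 1 (M + 1), ∃ s ∈ F, n • x - s ∈ (S2 + S3) - (S2 + S3) := by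
    intro n hn
    obtain ⟨s, hs, w, hw, hsw⟩ := Finset.mem_add.1 (hcov (hmul n hn))
    refine ⟨s, hs, ?_⟩
    rw [← hsw, add_sub_cancel_left]
    exact hw
  choose! σ hσF hσ using hch
  obtain ⟨m, hm1, n, hn1, hmn, hσe⟩ : ∃ m ∈ Finset.Icc 1 (M + 1), ∃ n ∈ Finset.Icc 1 (M + 1),
      m ≠ n ∧ σ m = σ n := by
    apply Finset.exists_ne_map_eq_of_card_lt_of_maps_to (t := F)
    · rw [Nat.card_Icc]
      omega
    · exact hσF
  obtain ⟨m, n, hm1, hn1, hmn, hσe⟩ : ∃ m n : ℕ, m ∈ Finset.Icc 1 (M + 1) ∧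
      n ∈ Finset.Icc 1 (M + 1) ∧ m < n ∧ σ m = σ n := by
    rcases lt_or_gt_of_ne hmn with h | h
    · exact ⟨m, n, hm1, hn1, h, hσe⟩
    · exact ⟨n, m, hn1, hm1, h, hσe.symm⟩
  have hdm := hσ m hm1
  have hdn := hσ n hn1
  obtain ⟨p1, hp1, p2, hp2, hp⟩ := Finset.mem_sub.1 hdn
  obtain ⟨q1, hq1, q2, hq2, hq⟩ := Finset.mem_sub.1 hdm
  obtain ⟨u1, hu1, v1, hv1, rfl⟩ := Finset.mem_add.1 hp1
  obtain ⟨u2, hu2, v2, hv2, rfl⟩ := Finset.mem_add.1 hp2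
  obtain ⟨u3, hu3, v3, hv3, rfl⟩ := Finset.mem_add.1 hq1
  obtain ⟨u4, hu4, v4, hv4, rfl⟩ := Finset.mem_add.1 hq2
  rw [hS2, hm] at hu1 hu2 hu3 hu4
  rw [hS3, hm] at hv1 hv2 hv3 hv4
  rw [Finset.mem_Icc] at hm1 hn1
  refine ⟨n - m, by omega, ?_, u1 - u2 - (u3 - u4), ?_, v1 - v2 - (v3 - v4), ?_, ?_, ?_, ?_⟩
  · have : ((n - m : ℕ) : ℝ) ≤ M := by
      have : n - m ≤ M := by omega
      exact_mod_cast this
    linarith
  · exact (cut G (N t₂)).sub_mem ((cut G (N t₂)).sub_mem hu1.1 hu2.1)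
      ((cut G (N t₂)).sub_mem hu3.1 hu4.1)
  · exact (cut G (N t₃)).sub_mem ((cut G (N t₃)).sub_mem hv1.1 hv2.1)
      ((cut G (N t₃)).sub_mem hv3.1 hv4.1)
  · have h5 : n • x = σ n + (u1 + v1 - (u2 + v2)) := by
      rw [hp]
      abel
    have h6 : m • x = σ n + (u3 + v3 - (u4 + v4)) := by
      rw [hq, hσe]
      abel
    have h7 : (n - m) • x = n • x - m • x := by
      rw [eq_sub_iff_add_eq, ← add_nsmul, Nat.sub_add_cancel hmn.le]
    rw [h7, h5, h6]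
    abel
  · rw [map_sub, map_sub, map_sub]
    have e1 := norm_sub_le (f u1 - f u2) (f u3 - f u4)
    have e2 := norm_sub_le (f u1) (f u2)
    have e3 := norm_sub_le (f u3) (f u4)
    linarith [hu1.2.1, hu2.2.1, hu3.2.1, hu4.2.1]
  · rw [map_sub, map_sub, map_sub]
    have e1 := norm_sub_le (f v1 - f v2) (f v3 - f v4)
    have e2 := norm_sub_le (f v1) (f v2)
    have e3 := norm_sub_le (f v3) (f v4)
    linarith [hv1.2.1, hv2.2.1, hv3.2.1, hv4.2.1]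

theorem traPos (Φ : A →+ ℂ) (f : A →+ E) (G : AddSubgroup A) (N : ℝ → Submodule ℚ A)
    (W : Finset ℝ) (j H t₁ t₂ t₃ : ℝ) (hN : Nar Φ f G N W j H) (h1 : t₁ ∈ W) (h2 : t₂ ∈ W)
    (h3 : t₃ ∈ W) (h23 : t₂ ≠ t₃) (x : A) (hx : x ∈ cut G (N t₁)) (hre : 0 < (Φ x).re)
    (hxs : ‖f x‖ * (H + 1) ≤ 1) :
    ∃ c : ℕ, 1 ≤ c ∧ (c : ℝ) ≤ H ∧ ∃ y ∈ cut G (N t₂), ∃ z ∈ cut G (N t₃), c • x = y + z ∧
      ‖f y‖ ≤ 16 * H ^ 2 * ‖f x‖ ∧ ‖f z‖ ≤ 16 * H ^ 2 * ‖f x‖ := by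
  classical
  have hH1 := hN.hH
  have hdis := hN.dis t₂ h2 t₃ h3 h23
  have hx0 : x ≠ 0 := by
    intro h
    rw [h, map_zero] at hre
    simp at hre
  have hfx : 0 < ‖f x‖ := norm_pos hN.dsc hx.1 hx0
  obtain ⟨Q, hQ⟩ : ∃ Q : ℕ → Prop, ∀ c, Q c ↔
      1 ≤ c ∧ ∃ y ∈ cut G (N t₂), ∃ z ∈ cut G (N t₃), c • x = y + z := ⟨_, fun _ => Iff.rfl⟩
  obtain ⟨c1, hc11, hc12, y1, hy1, z1, hz1, he1, _, _⟩ :=
    stepT Φ f G N W j H t₁ t₂ t₃ hN h1 h2 h3 h23 x hx hre hxs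
  have hex : ∃ c, Q c := ⟨c1, (hQ c1).2 ⟨hc11, y1, hy1, z1, hz1, he1⟩⟩
  obtain ⟨c0, hc0⟩ : ∃ c0, c0 = Nat.find hex := ⟨_, rfl⟩
  have hQ0 : Q c0 := by rw [hc0]; exact Nat.find_spec hex
  have hmin : ∀ c, Q c → c0 ≤ c := fun c hc => by rw [hc0]; exact Nat.find_min' hex hc
  have hc0H : (c0 : ℝ) ≤ H := by
    have : c0 ≤ c1 := hmin c1 ((hQ c1).2 ⟨hc11, y1, hy1, z1, hz1, he1⟩)
    have : (c0 : ℝ) ≤ c1 := by exact_mod_cast this
    linarith
  obtain ⟨hc01, y, hy, z, hz, hyz⟩ := (hQ c0).1 hQ0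
  have hdvd : ∀ c, Q c → c0 ∣ c := by
    intro c hc
    obtain ⟨_, y', hy', z', hz', he⟩ := (hQ c).1 hc
    rw [Nat.dvd_iff_mod_eq_zero]
    by_contra hne
    have hlt : c % c0 < c0 := Nat.mod_lt _ hc01
    have hr : Q (c % c0) := by
      rw [hQ]
      refine ⟨by omega, y' - (c / c0) • y,
        (cut G (N t₂)).sub_mem hy' ((cut G (N t₂)).nsmul_mem hy _), z' - (c / c0) • z,
        (cut G (N t₃)).sub_mem hz' ((cut G (N t₃)).nsmul_mem hz _), ?_⟩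
      have h5 : c • x = (c / c0) • (c0 • x) + (c % c0) • x := by
        rw [← mul_nsmul, ← add_nsmul]
        congr 1
        exact (Nat.div_add_mod c c0).symm
      have h6 : (c % c0) • x = c • x - (c / c0) • (c0 • x) := by
        rw [h5, add_sub_cancel_left]
      rw [h6, he, hyz, nsmul_add]
      abel
    have := hmin _ hr
    omega
  -- the large multiple
  have hden : 0 < (H + 1) * ‖f x‖ := by positivity
  obtain ⟨m, hm⟩ : ∃ m : ℕ, m = ⌊1 / ((H + 1) * ‖f x‖)⌋₊ := ⟨_, rfl⟩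
  have hone : 1 ≤ 1 / ((H + 1) * ‖f x‖) := by
    rw [le_div_iff₀ hden]
    linarith
  have hm1 : 1 ≤ m := by
    rw [hm]
    exact Nat.le_floor (by exact_mod_cast hone)
  have hmle : (m : ℝ) ≤ 1 / ((H + 1) * ‖f x‖) := by
    rw [hm]
    exact Nat.floor_le (by positivity)
  have hmge : 1 / ((H + 1) * ‖f x‖) ≤ 2 * m := by
    have h5 : 1 / ((H + 1) * ‖f x‖) < m + 1 := by
      rw [hm]
      exact Nat.lt_floor_add_one _
    have h6 : (1 : ℝ) ≤ m := by exact_mod_cast hm1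
    linarith
  have hm1R : (1 : ℝ) ≤ m := by exact_mod_cast hm1
  have hmx : m • x ∈ cut G (N t₁) := (cut G (N t₁)).nsmul_mem hx m
  have hmre : 0 < (Φ (m • x)).re := by
    have : (Φ (m • x)).re = m * (Φ x).re := by
      rw [map_nsmul, nsmul_eq_mul]
      simp [Complex.mul_re]
    rw [this]
    positivity
  have hmxs : ‖f (m • x)‖ * (H + 1) ≤ 1 := by
    rw [norm_f_nat]
    rw [le_div_iff₀ hden] at hmle
    linarith
  obtain ⟨c, hc1, hcH, y', hy', z', hz', he, hy4, hz4⟩ :=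
    stepT Φ f G N W j H t₁ t₂ t₃ hN h1 h2 h3 h23 _ hmx hmre hmxs
  have hcm : Q (c * m) := by
    rw [hQ]
    refine ⟨Nat.mul_pos hc1 hm1, y', hy', z', hz', ?_⟩
    rw [← he, mul_comm, mul_nsmul]
  obtain ⟨q, hq⟩ := hdvd _ hcm
  have hq1 : 1 ≤ q := by
    rcases Nat.eq_zero_or_pos q with h | h
    · rw [h, mul_zero] at hq
      have : 0 < c * m := Nat.mul_pos hc1 hm1
      omega
    · exact h
  have hqe : q • y + q • z = y' + z' := by
    rw [← nsmul_add, ← hyz, ← mul_nsmul, ← hq, mul_comm, mul_nsmul]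
    exact he
  obtain ⟨hqy, hqz⟩ := uniqD hdis ((cut G (N t₂)).nsmul_mem hy q) hy'
    ((cut G (N t₃)).nsmul_mem hz q) hz' hqe
  have hq1R : (1 : ℝ) ≤ q := by exact_mod_cast hq1
  have hc1R : (1 : ℝ) ≤ c := by exact_mod_cast hc1
  have hbound : ∀ w : A, (q : ℝ) * ‖f w‖ ≤ 4 → ‖f w‖ ≤ 16 * H ^ 2 * ‖f x‖ := by
    intro w hw
    -- c m = c0 q
    have h5 : (c : ℝ) * (m : ℝ) = (c0 : ℝ) * (q : ℝ) := by exact_mod_cast hq
    have h6 : (m : ℝ) ≤ H * q := by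
      calc (m : ℝ) ≤ c * m := by nlinarith
        _ = c0 * q := h5
        _ ≤ H * q := mul_le_mul_of_nonneg_right hc0H (by linarith)
    have h7 : 1 ≤ 2 * m * ((H + 1) * ‖f x‖) := by
      rw [div_le_iff₀ hden] at hmge
      exact hmge
    have h8 : 1 ≤ 4 * H ^ 2 * q * ‖f x‖ := by
      calc (1 : ℝ) ≤ 2 * m * ((H + 1) * ‖f x‖) := h7
        _ ≤ 2 * (H * q) * ((2 * H) * ‖f x‖) := by
            apply mul_le_mul
            · linarith
            · exact mul_le_mul_of_nonneg_right (by linarith) hfx.le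
            · positivity
            · positivity
        _ = 4 * H ^ 2 * q * ‖f x‖ := by ring
    have h9 : (q : ℝ) * ‖f w‖ ≤ q * (16 * H ^ 2 * ‖f x‖) := by
      calc (q : ℝ) * ‖f w‖ ≤ 4 := hw
        _ ≤ 4 * (4 * H ^ 2 * q * ‖f x‖) := by linarith
        _ = _ := by ring
    exact le_of_mul_le_mul_left h9 (by linarith)
  refine ⟨c0, hc01, hc0H, y, hy, z, hz, hyz, hbound y ?_, hbound z ?_⟩
  · rw [← norm_f_nat, hqy]
    exact hy4
  · rw [← norm_f_nat, hqz]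
    exact hz4

theorem tra : TraStmt := by
  intro A _ _ E _ _ Φ f G N W j H t₁ t₂ t₃ hN h1 h2 h3 _ _ h23 x hx hxs
  rcases lt_trichotomy (Φ x).re 0 with h | h | h
  · have hx' : -x ∈ cut G (N t₁) := (cut G (N t₁)).neg_mem hx
    obtain ⟨c, hc1, hcH, y, hy, z, hz, he, hy4, hz4⟩ :=
      traPos Φ f G N W j H t₁ t₂ t₃ hN h1 h2 h3 h23 (-x) hx' (by
        rw [map_neg, Complex.neg_re]
        linarith) (by rw [map_neg, norm_neg]; exact hxs)
    rw [map_neg, norm_neg] at hy4 hz4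
    refine ⟨c, hc1, hcH, -y, (cut G (N t₂)).neg_mem hy, -z, (cut G (N t₃)).neg_mem hz, ?_, ?_, ?_⟩
    · rw [← neg_add, ← he, smul_neg, neg_neg]
    · rw [map_neg, norm_neg]
      exact hy4
    · rw [map_neg, norm_neg]
      exact hz4
  · have hH1 := hN.hH
    have hn := norm_nonneg (f x)
    have hfx1 : ‖f x‖ ≤ 8 := by nlinarith
    have hx0 : x = 0 := hN.ppr x hx.1 hfx1 (eq_zero_of_re (hN.slo t₁ h1 x hx.2) h)
    refine ⟨1, le_rfl, by
      push_cast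
      exact hN.hH, 0, (cut G (N t₂)).zero_mem, 0, (cut G (N t₃)).zero_mem, ?_, ?_, ?_⟩
    · rw [hx0, smul_zero, add_zero]
    · rw [hx0, map_zero, norm_zero, mul_zero]
    · rw [hx0, map_zero, norm_zero, mul_zero]
  · exact traPos Φ f G N W j H t₁ t₂ t₃ hN h1 h2 h3 h23 x hx h hxs

end Pool.Agent.PLX.H67
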