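import Pool.Agent.PLX.StmtsA

set_option autoImplicit false

namespace Pool.Agent.PLX.H67

theorem sol : SolStmt := by
  intro n t ht i i' hi hi' x y x' y' hx1 hx2 hy1 hy2 hx1' hx2' hy1' hy2' he
  have hmono : ∀ a b : ℕ, a ≤ b → b ≤ n → t a ≤ t b := by
    intro a b hab
    induction b, hab using Nat.le_induction with
    | base => intro _; exact le_refl _
    | succ b _ ih => intro hb; exact (ih (by omega)).trans (ht b (by omega)).le
  have low : ∀ (i : ℕ) (x y : ℂ), i < n → x.im = t i * x.re → 0 < x.re →
      y.im = t (i + 1) * y.re → 0 < y.re → t i * (x + y).re < (x + y).im ∧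
      (x + y).im < t (i + 1) * (x + y).re := by
    intro i x y hi h1 h2 h3 h4
    have h5 := ht i hi
    rw [Complex.add_re, Complex.add_im, h1, h3]
    constructor <;> nlinarith
  have key : i = i' := by
    rcases lt_trichotomy i i' with h | h | h
    · exfalso
      have h1 := (low i x y hi hx1 hx2 hy1 hy2).2
      have h2 := (low i' x' y' hi' hx1' hx2' hy1' hy2').1
      have h3 := hmono (i + 1) i' (by omega) (by omega)
      rw [he] at h1
      have h4 : 0 < (x' + y').re := by
        rw [Complex.add_re]
        exact add_pos hx2' hy2'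
      nlinarith
    · exact h
    · exfalso
      have h1 := (low i' x' y' hi' hx1' hx2' hy1' hy2').2
      have h2 := (low i x y hi hx1 hx2 hy1 hy2).1
      have h3 := hmono (i' + 1) i (by omega) (by omega)
      rw [he] at h2
      have h4 : 0 < (x' + y').re := by
        rw [Complex.add_re]
        exact add_pos hx2' hy2'
      nlinarith
  subst key
  have h1 : x - x' = y' - y := by linear_combination he
  have h2 : x - x' = 0 := by
    apply eq_zero_of_slopes (ht i hi).ne
    · rw [Complex.sub_im, Complex.sub_re, hx1, hx1']
      ring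
    · rw [h1, Complex.sub_im, Complex.sub_re, hy1, hy1']
      ring
  refine ⟨rfl, sub_eq_zero.1 h2, ?_⟩
  rw [h2] at h1
  exact (sub_eq_zero.1 h1.symm).symm

end Pool.Agent.PLX.H67
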