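import Pool.Agent.PLX.StmtsA
import Pool.Agent.Helper53_FCM.Pac

set_option autoImplicit false

namespace Pool.Agent.PLX.H67

open Module

/-- the real span of the image is at most as large as the rational space -/
theorem finrank_span_image {A : Type} [AddCommGroup A] [Module ℚ A] {E : Type}
    [NormedAddCommGroup E] [NormedSpace ℝ E] (f : A →+ E)
    (M : Submodule ℚ A) [FiniteDimensional ℚ M] :
    FiniteDimensional ℝ (Submodule.span ℝ (f '' (M : Set A))) ∧
      finrank ℝ (Submodule.span ℝ (f '' (M : Set A))) ≤ finrank ℚ M := by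
  let b := finBasis ℚ M
  have h : Submodule.span ℝ (f '' (M : Set A)) =
      Submodule.span ℝ (Set.range fun j => f (b j : A)) := by
    apply le_antisymm
    · rw [Submodule.span_le]
      rintro _ ⟨x, hx, rfl⟩
      have h1 := b.sum_repr ⟨x, hx⟩
      have h2 : ∑ j, b.repr ⟨x, hx⟩ j • (b j : A) = x := by
        have h3 := congrArg (fun u : M => (u : A)) h1
        simpa only [Submodule.coe_sum, Submodule.coe_smul] using h3
      rw [← h2, map_sum]
      refine Submodule.sum_mem _ fun j _ => ?_
      rw [f_rat]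
      exact Submodule.smul_mem _ _ (Submodule.subset_span ⟨j, rfl⟩)
    · apply Submodule.span_mono
      rintro _ ⟨j, rfl⟩
      exact ⟨b j, (b j).2, rfl⟩
  rw [h]
  refine ⟨FiniteDimensional.span_of_finite ℝ (Set.finite_range _), ?_⟩
  exact (finrank_range_le_card _).trans (by simp)

theorem pkv : PkvStmt := by
  intro A _ _ E _ _ f M hM S δ R hδ hR hS hsep
  classical
  obtain ⟨hF, hle⟩ := finrank_span_image f M
  let g : {x // x ∈ S} → Submodule.span ℝ (f '' (M : Set A)) := fun x =>
    ⟨f x.1, Submodule.subset_span ⟨x.1, (hS x.1 x.2).1, rfl⟩⟩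
  have hg : ∀ x y : {x // x ∈ S}, x ≠ y → δ ≤ ‖g x - g y‖ := by
    intro x y hxy
    have h1 : ‖g x - g y‖ = ‖f (x.1 - y.1)‖ := by
      rw [map_sub]
      rfl
    rw [h1]
    exact hsep x.1 x.2 y.1 y.2 fun h => hxy (Subtype.ext h)
  have hinj : Function.Injective g := by
    intro x y h
    by_contra hxy
    have h1 := hg x y hxy
    rw [h, sub_self, norm_zero] at h1
    linarith
  have h1 := Pool.Agent.FCM.card_le_of_separated (Finset.univ.image g) δ R hδ hR (by
      intro c hc
      obtain ⟨x, -, rfl⟩ := Finset.mem_image.1 hc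
      exact (hS x.1 x.2).2) (by
      intro c hc c' hc' hne
      obtain ⟨x, -, rfl⟩ := Finset.mem_image.1 hc
      obtain ⟨y, -, rfl⟩ := Finset.mem_image.1 hc'
      exact hg x y fun h => hne (by rw [h]))
  rw [Finset.card_image_of_injective _ hinj, Finset.card_univ, Fintype.card_coe] at h1
  have h2 : (0 : ℝ) ≤ 2 * R / δ := by positivity
  refine h1.trans ?_
  rw [add_comm]
  exact pow_le_pow_right₀ (by linarith) hle

end Pool.Agent.PLX.H67
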